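import Pool.Agent.H379.TN.Stms
import Pool.Agent.H190.NK.Dual

/-!
# Project TN (MP_68f647_al, S01776), part B: `Hom_C(DC, Q) = 0` and `Ext^i_C(DC, Q) = 0`
-/

set_option autoImplicit false
set_option linter.unusedSectionVars false
set_option linter.unusedVariables false

open CategoryTheory CategoryTheory.Abelian
open Pool.Agent.H379.GS
open Pool.Agent.H379.TN
open Pool.Agent.H190.NK (GG pre post Gmap ev_Gmap ev_sum factor Gmap_surj Gmap_inj Gmap_exact
  Gmap_comp_zero contra_shift contra_one co_shift co_lift co_mid shortExact_of)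

namespace Pool.Agent.H860.TN

variable {K : Type} [Field K] {B : Type} [Ring B] [Algebra K B]

section frob

variable [Module.Finite K B] (y : Fr K B)

/-- `b ↦ (x ↦ lam (x * b))` -/
noncomputable def phi : B ≃ₗ[K] Module.Dual K B :=
  LinearEquiv.ofInjectiveOfFinrankEq
    ({ toFun := fun b => y.lam ∘ₗ LinearMap.mulRight K b
       map_add' := fun b b' => by
        ext x
        simp [mul_add]
       map_smul' := fun c b => by
        ext x
        simp } : B →ₗ[K] Module.Dual K B)
    (by
      rw [← LinearMap.ker_eq_bot, LinearMap.ker_eq_bot']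
      intro b hb
      refine y.nondeg b fun x => ?_
      exact LinearMap.congr_fun hb x)
    (Subspace.dual_finrank_eq (K := K) (V := B)).symm

theorem phi_apply (b x : B) : phi y b x = y.lam (x * b) := rfl

theorem eq_of_lam {t t' : B} (h : ∀ a, y.lam (a * t) = y.lam (a * t')) : t = t' := by
  rw [← sub_eq_zero]
  refine y.nondeg _ fun x => ?_
  rw [mul_sub, map_sub, h, sub_self]

variable {Q : Type} [AddCommGroup Q] [Module B Q] [Module K Q] [IsScalarTower K B Q]

/-- the `B`-linear map with a given trace -/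
noncomputable def lift (l : Q →ₗ[K] K) : Q →ₗ[B] B where
  toFun q := (phi y).symm (l ∘ₗ (LinearMap.toSpanSingleton B Q q).restrictScalars K)
  map_add' q q' := by
    rw [← map_add]
    congr 1
    ext a
    simp [smul_add]
  map_smul' t q := by
    apply eq_of_lam y
    intro a
    rw [← phi_apply, LinearEquiv.apply_symm_apply, RingHom.id_apply, smul_eq_mul, ← mul_assoc,
      ← phi_apply, LinearEquiv.apply_symm_apply]
    simp [mul_smul]

theorem lam_mul_lift (l : Q →ₗ[K] K) (a : B) (q : Q) :
    y.lam (a * lift y l q) = l (a • q) := by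
  rw [← phi_apply]
  change phi y ((phi y).symm _) a = _
  rw [LinearEquiv.apply_symm_apply]
  simp

theorem lam_lift (l : Q →ₗ[K] K) (q : Q) : y.lam (lift y l q) = l q := by
  have := lam_mul_lift y l 1 q
  simpa using this

theorem lift_lam (f : Q →ₗ[B] B) : lift y (y.lam ∘ₗ f.restrictScalars K) = f := by
  ext q
  apply eq_of_lam y
  intro a
  rw [lam_mul_lift]
  simp

theorem hom_ext {f g : Q →ₗ[B] B} (h : ∀ q, y.lam (f q) = y.lam (g q)) : f = g := by
  rw [← lift_lam y f, ← lift_lam y g]
  congr 1
  ext q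
  exact h q

theorem sep {q q' : Q} (h : ∀ s : Q →ₗ[B] B, y.lam (s q) = y.lam (s q')) : q = q' := by
  rw [← sub_eq_zero, ← Module.forall_dual_apply_eq_zero_iff K]
  intro l
  have := h (lift y l)
  rw [lam_lift, lam_lift] at this
  rw [map_sub, this, sub_self]

include y in
/-- `B` is injective as a module over itself -/
theorem injective_self : Module.Injective B B := by
  refine ⟨fun P Q _ _ _ _ f hf g => ?_⟩
  let : Module K P := Module.compHom P (algebraMap K B)
  let : Module K Q := Module.compHom Q (algebraMap K B)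
  have : IsScalarTower K B P := ⟨fun c t p => by
    change (c • t) • p = algebraMap K B c • (t • p)
    rw [smul_smul, Algebra.smul_def]⟩
  have : IsScalarTower K B Q := ⟨fun c t p => by
    change (c • t) • p = algebraMap K B c • (t • p)
    rw [smul_smul, Algebra.smul_def]⟩
  obtain ⟨l, hl⟩ := LinearMap.dualMap_surjective_of_injective (f := f.restrictScalars K)
    (by exact hf) (y.lam ∘ₗ g.restrictScalars K)
  refine ⟨lift y l, fun p => ?_⟩
  apply eq_of_lam y
  intro a
  rw [lam_mul_lift, ← map_smul]
  have := LinearMap.congr_fun hl (a • p)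
  simp only [LinearMap.dualMap_apply', LinearMap.comp_apply, LinearMap.restrictScalars_apply] at this
  rw [this, map_smul, smul_eq_mul]

include y in
theorem inj_pi (n : ℕ) : Module.Injective B (Fin n → B) := by
  have := injective_self y
  refine ⟨fun P Q _ _ _ _ f hf g => ?_⟩
  have h : ∀ i : Fin n, ∃ h : Q →ₗ[B] B, ∀ x, h (f x) = ((LinearMap.proj i) ∘ₗ g) x := by
    intro i
    exact this.out f hf _
  choose h hh using h
  refine ⟨LinearMap.pi h, fun x => ?_⟩
  ext i
  exact hh i x

include y in
theorem exists_embed {N : Type} [AddCommGroup N] [Module B N] [Module K N] [IsScalarTower K B N]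
    [Module.Finite K N] : ∃ (n : ℕ) (j : N →ₗ[B] (Fin n → B)), Function.Injective j := by
  let b := Module.finBasis K N
  refine ⟨Module.finrank K N, LinearMap.pi fun i => lift y (b.coord i), ?_⟩
  rw [← LinearMap.ker_eq_bot, LinearMap.ker_eq_bot']
  intro q hq
  apply b.ext_elem
  intro i
  have h1 : lift y (b.coord i) q = 0 := congrFun hq i
  have h2 := lam_lift y (b.coord i) q
  rw [h1, map_zero] at h2
  rw [← Module.Basis.coord_apply, ← h2, map_zero]
  rfl

variable {M : Type} [AddCommGroup M] [Module B M] [Module K M] [IsScalarTower K B M]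
  [Module.Finite K M]

/-- `κ : D Hom_B(M, B) → M`, the inverse of the canonical map -/
theorem exists_κ (ξ : Module.Dual K (M →ₗ[B] B)) :
    ∃ m : M, ∀ s : M →ₗ[B] B, y.lam (s m) = ξ s := by
  let L : Module.Dual K M →ₗ[K] (M →ₗ[B] B) :=
    { toFun := fun l => lift y l
      map_add' := fun l l' => hom_ext y fun q => by
        rw [lam_lift, LinearMap.add_apply, LinearMap.add_apply, map_add, lam_lift, lam_lift]
      map_smul' := fun c l => hom_ext y fun q => by
        rw [lam_lift, LinearMap.smul_apply, LinearMap.smul_apply, map_smul, lam_lift,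
          RingHom.id_apply] }
  obtain ⟨m, hm⟩ := (Module.evalEquiv K M).surjective (ξ ∘ₗ L)
  refine ⟨m, fun s => ?_⟩
  have h1 := LinearMap.congr_fun hm (y.lam ∘ₗ s.restrictScalars K)
  simp only [Module.evalEquiv_apply, Module.Dual.eval_apply, LinearMap.comp_apply,
    LinearMap.restrictScalars_apply] at h1
  rw [h1]
  change ξ (lift y _) = _
  rw [lift_lam]

/-- the inverse of the canonical map -/
noncomputable def κ (ξ : Module.Dual K (M →ₗ[B] B)) : M := (exists_κ y ξ).choose

theorem κ_spec (ξ : Module.Dual K (M →ₗ[B] B)) (s : M →ₗ[B] B) : y.lam (s (κ y ξ)) = ξ s :=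
  (exists_κ y ξ).choose_spec s

/-- the canonical elements of `G (B^m)` -/
noncomputable def iot {m : ℕ} (i : Fin m) :
    M →ₗ[Module.End B M] GG K M (T := B) (Fin m → B) where
  toFun z := GG.mk
    { toFun := fun f => y.lam (f z i)
      map_add' := fun f g => by rw [LinearMap.add_apply, Pi.add_apply, map_add]
      map_smul' := fun c f => by
        rw [LinearMap.smul_apply, Pi.smul_apply, map_smul, RingHom.id_apply] }
  map_add' z z' := GG.ext fun f => by
    change y.lam (f (z + z') i) = y.lam (f z i) + y.lam (f z' i)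
    rw [map_add, Pi.add_apply, map_add]
  map_smul' γ z := GG.ext fun f => rfl

theorem iot_ev {m : ℕ} (i : Fin m) (z : M) (f : M →ₗ[B] (Fin m → B)) :
    (iot (K := K) y i z).ev f = y.lam (f z i) := rfl

/-- the coordinates of the elements of `G (B^m)` -/
noncomputable def co {m : ℕ} (i : Fin m) :
    GG K M (T := B) (Fin m → B) →ₗ[Module.End B M] M where
  toFun ξ := κ y (ξ.ev ∘ₗ post (LinearMap.single B (fun _ : Fin m => B) i))
  map_add' ξ ξ' := sep y fun s => by
    rw [map_add s, map_add y.lam, κ_spec, κ_spec, κ_spec]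
    rfl
  map_smul' γ ξ := sep y fun s => by
    rw [κ_spec]
    change _ = y.lam ((s ∘ₗ γ) _)
    rw [κ_spec]
    rfl

theorem co_spec {m : ℕ} (i : Fin m) (ξ : GG K M (T := B) (Fin m → B)) (s : M →ₗ[B] B) :
    y.lam (s (co y i ξ)) = ξ.ev ((LinearMap.single B (fun _ : Fin m => B) i) ∘ₗ s) :=
  κ_spec y _ s

theorem iot_co {m : ℕ} (ξ : GG K M (T := B) (Fin m → B)) : ∑ i, iot y i (co y i ξ) = ξ := by
  refine GG.ext fun f => ?_
  rw [ev_sum]
  have : ∀ i : Fin m, (iot y i (co y i ξ)).ev f =
      ξ.ev ((LinearMap.single B (fun _ => B) i) ∘ₗ (LinearMap.proj i) ∘ₗ f) := by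
    intro i
    rw [iot_ev]
    exact co_spec y i ξ ((LinearMap.proj i : (Fin m → B) →ₗ[B] B) ∘ₗ f)
  rw [Finset.sum_congr rfl fun i _ => this i, ← map_sum]
  congr 1
  ext z j
  simp only [LinearMap.sum_apply, LinearMap.comp_apply, LinearMap.coe_single, LinearMap.coe_proj,
    Function.eval, Finset.sum_apply]
  rw [Finset.sum_eq_single j]
  · simp
  · intro i _ hi; simp [hi.symm]
  · simp

/-- `z ↦ (x ↦ p₁ x • z)` -/
def sm (p₁ : M →ₗ[B] B) : M →ₗ[Module.End B M] Module.End B M where
  toFun z := (p₁.smulRight z : Module.End B M)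
  map_add' z z' := by
    ext x
    simp
  map_smul' γ z := by
    ext x
    simp

include y in
/-- `G (B^m)` is projective -/
theorem projective_G {p₁ : M →ₗ[B] B} {e : M} (he : p₁ e = 1) (m : ℕ) :
    Module.Projective (Module.End B M) (GG K M (T := B) (Fin m → B)) := by
  refine Module.Projective.of_split (M := Fin m → Module.End B M)
    (LinearMap.pi fun i => sm p₁ ∘ₗ co y i)
    (∑ i, (iot y i) ∘ₗ (LinearMap.toSpanSingleton (Module.End B M) M e) ∘ₗ (LinearMap.proj i)) ?_
  refine LinearMap.ext fun ξ => ?_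
  simp only [LinearMap.comp_apply, LinearMap.sum_apply, LinearMap.pi_apply, LinearMap.coe_proj,
    Function.eval, LinearMap.id_apply]
  refine Eq.trans (Finset.sum_congr rfl fun i _ => ?_) (iot_co y ξ)
  congr 1
  change p₁ e • co y i ξ = co y i ξ
  rw [he, one_smul]

end frob

/-- the class of modules used in the dimension shift -/
def Cls (B U N : Type) [Ring B] [AddCommGroup U] [Module B U] [AddCommGroup N] [Module B N] :
    Prop := Module.Finite B N ∧ EV B U N

section steps

variable {U : Type} [AddCommGroup U] [Module B U]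
variable {N : Type} [AddCommGroup N] [Module B N]
variable {N' : Type} [AddCommGroup N'] [Module B N']

theorem cls_quot [Module.Finite K B] (y : Fr K B) {n : ℕ} {j : N →ₗ[B] (Fin n → B)}
    (hj : Function.Injective j)
    {q : (Fin n → B) →ₗ[B] N'} (hq : Function.Surjective q) (h0 : ∀ a, q (j a) = 0)
    (hex : ∀ b, q b = 0 → ∃ a, j a = b) (hN : Cls B U N) : Cls B U N' := by
  refine ⟨Module.Finite.of_surjective q hq, fun k => ?_⟩
  have := inj_pi y n
  have : Injective (ModuleCat.of B (Fin n → B)) :=
    Module.injective_object_of_injective_module B (Fin n → B)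
  exact co_shift (shortExact_of j q hj hq h0 hex) (ModuleCat.of B U) k (hN.2 (k + 1))

theorem lift_of_cls {n : ℕ} {j : N →ₗ[B] (Fin n → B)} (hj : Function.Injective j)
    {q : (Fin n → B) →ₗ[B] N'} (hq : Function.Surjective q) (h0 : ∀ a, q (j a) = 0)
    (hex : ∀ b, q b = 0 → ∃ a, j a = b) (hN : Cls B U N) (g : (B × U) →ₗ[B] N') :
    ∃ g' : (B × U) →ₗ[B] (Fin n → B), q ∘ₗ g' = g := by
  obtain ⟨a, ha⟩ := hq (g (1, 0))
  obtain ⟨g₂, hg₂⟩ := co_lift (shortExact_of j q hj hq h0 hex) (ModuleCat.of B U) (hN.2 0)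
    (ModuleCat.ofHom (g ∘ₗ LinearMap.inr B B U))
  refine ⟨(LinearMap.toSpanSingleton B _ a).coprod g₂.hom, ?_⟩
  refine LinearMap.prod_ext ?_ ?_
  · ext
    simp [ha]
  · ext x
    have := LinearMap.congr_fun (congrArg ModuleCat.Hom.hom hg₂) x
    simpa using this

end steps

theorem subsingleton_of_iso {C : Type 1} [Category.{0} C] [Abelian C] [HasExt.{0} C] {X X' Y : C}
    (e : X ≅ X') (n : ℕ) (h : Subsingleton (Ext.{0} X Y n)) : Subsingleton (Ext.{0} X' Y n) := by
  refine subsingleton_of_forall_eq 0 fun x => ?_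
  have h1 : x = (Ext.mk₀ e.inv).comp ((Ext.mk₀ e.hom).comp x (zero_add n)) (zero_add n) := by
    rw [Ext.mk₀_comp_mk₀_assoc]
    simp
  rw [h1, Subsingleton.elim ((Ext.mk₀ e.hom).comp x (zero_add n)) 0, Ext.comp_zero]

/-- the dual of the endomorphism algebra is `G M` -/
def isoDA (K B M : Type) [Field K] [Ring B] [Algebra K B] [AddCommGroup M] [Module B M]
    [Module K M] [IsScalarTower K B M] [Module.Finite K M] :
    GG K M (T := B) M ≃ₗ[Module.End B M] DA K (Module.End B M) where
  toFun ξ := DA.mk ξ.ev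
  invFun f := GG.mk (DA.ev f)
  map_add' ξ ξ' := rfl
  map_smul' γ ξ := rfl
  left_inv ξ := rfl
  right_inv f := rfl

section main

variable [Module.Finite K B] (y : Fr K B)
variable {U : Type} [AddCommGroup U] [Module K U] [Module B U] [IsScalarTower K B U]
  [Module.Finite K U] [Nontrivial U] (π : Module.End B (B × U) →ₐ[K] K)
  (hπ : ∀ (c : Module.End B (B × U)) (u : U), (c (0, u)).2 = π c • u)

include hπ in
/-- `Hom_C(M, Q) = 0` -/
theorem hom_M (θ : (B × U) →ₗ[Module.End B (B × U)] Chi π) : θ = 0 := by
  refine LinearMap.ext fun z => ?_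
  let γ : Module.End B (B × U) := (LinearMap.fst B B U).smulRight z
  have h1 : π γ = 0 := by
    obtain ⟨u, hu⟩ := exists_ne (0 : U)
    have h2 := hπ γ u
    have h3 : γ (0, u) = 0 := by
      change ((0, u) : B × U).1 • z = 0
      exact zero_smul B z
    rw [h3] at h2
    by_contra hne
    have h4 : π γ • u = 0 := h2.symm
    rcases smul_eq_zero.mp h4 with h5 | h5
    · exact hne h5
    · exact hu h5
  have h2 : z = γ • ((1, 0) : B × U) := by
    change z = (1 : B) • z
    rw [one_smul]
  rw [h2, map_smul]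
  apply Chi.ext π
  rw [Chi.un_smul, h1, zero_mul]
  rfl

include hπ y in
/-- `Hom_C(G (B^n), Q) = 0` -/
theorem hom_GB (n : ℕ)
    (f : GG K (B × U) (T := B) (Fin n → B) →ₗ[Module.End B (B × U)] Chi π) : f = 0 := by
  refine LinearMap.ext fun ξ => ?_
  rw [← iot_co y ξ, map_sum]
  refine Finset.sum_eq_zero fun i _ => ?_
  exact LinearMap.congr_fun (hom_M π hπ (f ∘ₗ iot y i)) (co y i ξ)

include hπ y in
/-- `Hom_C(G N, Q) = 0` for `N` finite-dimensional -/
theorem hom_G (N : Type) [AddCommGroup N] [Module B N] [Module K N] [IsScalarTower K B N]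
    [Module.Finite K N] (f : GG K (B × U) (T := B) N →ₗ[Module.End B (B × U)] Chi π) :
    f = 0 := by
  obtain ⟨n, j, hj⟩ := exists_embed y (N := N)
  refine LinearMap.ext fun ξ => ?_
  obtain ⟨η, rfl⟩ := Gmap_surj (K := K) (M := B × U) hj ξ
  exact LinearMap.congr_fun (hom_GB y π hπ n (f ∘ₗ Gmap j)) η

include hπ y in
theorem ext_G (k : ℕ) : ∀ (N : Type) [AddCommGroup N] [Module B N] [Module K N]
    [IsScalarTower K B N], Cls B U N →
    Subsingleton (Ext.{0} (ModuleCat.of (Module.End B (B × U)) (GG K (B × U) (T := B) N))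
      (ModuleCat.of (Module.End B (B × U)) (Chi π)) (k + 1)) := by
  have he : (LinearMap.fst B B U) ((1, 0) : B × U) = 1 := rfl
  induction k with
  | zero =>
    intro N _ _ _ _ hN
    have := hN.1
    have : Module.Finite K N := Module.Finite.trans B N
    obtain ⟨n, j, hj⟩ := exists_embed y (N := N)
    let q := (LinearMap.range j).mkQ
    have hq : Function.Surjective q := Submodule.mkQ_surjective _
    have h0 : ∀ a, q (j a) = 0 := fun a => by
      rw [Submodule.mkQ_apply, Submodule.Quotient.mk_eq_zero]; exact ⟨a, rfl⟩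
    have hex : ∀ b, q b = 0 → ∃ a, j a = b := fun b hb => by
      rw [Submodule.mkQ_apply, Submodule.Quotient.mk_eq_zero] at hb; exact hb
    have hN' : Cls B U ((Fin n → B) ⧸ LinearMap.range j) := cls_quot y hj hq h0 hex hN
    have := hN'.1
    have : Module.Finite K ((Fin n → B) ⧸ LinearMap.range j) := Module.Finite.trans B _
    have hlift := lift_of_cls hj hq h0 hex hN
    have hSE := shortExact_of (Gmap (K := K) (M := B × U) q) (Gmap (K := K) (M := B × U) j)
      (Gmap_inj hlift) (Gmap_surj hj) (Gmap_comp_zero h0) (Gmap_exact hj hex hlift)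
    have hP := projective_G y he n
    have hP' : Projective (ModuleCat.of (Module.End B (B × U))
      (GG K (B × U) (T := B) (Fin n → B))) := (IsProjective.iff_projective _).mp hP
    refine contra_one hSE _ fun g => ⟨0, ?_⟩
    rw [Limits.comp_zero]
    apply ModuleCat.hom_ext
    exact (hom_G y π hπ _ g.hom).symm
  | succ k ih =>
    intro N _ _ _ _ hN
    have := hN.1
    have : Module.Finite K N := Module.Finite.trans B N
    obtain ⟨n, j, hj⟩ := exists_embed y (N := N)
    let q := (LinearMap.range j).mkQ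
    have hq : Function.Surjective q := Submodule.mkQ_surjective _
    have h0 : ∀ a, q (j a) = 0 := fun a => by
      rw [Submodule.mkQ_apply, Submodule.Quotient.mk_eq_zero]; exact ⟨a, rfl⟩
    have hex : ∀ b, q b = 0 → ∃ a, j a = b := fun b hb => by
      rw [Submodule.mkQ_apply, Submodule.Quotient.mk_eq_zero] at hb; exact hb
    have hN' : Cls B U ((Fin n → B) ⧸ LinearMap.range j) := cls_quot y hj hq h0 hex hN
    have hlift := lift_of_cls hj hq h0 hex hN
    have hSE := shortExact_of (Gmap (K := K) (M := B × U) q) (Gmap (K := K) (M := B × U) j)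
      (Gmap_inj hlift) (Gmap_surj hj) (Gmap_comp_zero h0) (Gmap_exact hj hex hlift)
    have hP := projective_G y he n
    have hP' : Projective (ModuleCat.of (Module.End B (B × U))
      (GG K (B × U) (T := B) (Fin n → B))) := (IsProjective.iff_projective _).mp hP
    exact contra_shift hSE _ k (ih _ hN')

end main

/-- PART B of the project TN. -/
theorem s_B : S_B := by
  intro K B _ _ _ _ y U _ _ _ _ _ _ π hπ hU
  have _ : Module.Finite B U := Module.Finite.of_restrictScalars_finite K B U
  refine ⟨fun f => ?_, fun k => ?_⟩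
  · refine LinearMap.ext fun ξ => ?_
    obtain ⟨η, rfl⟩ := (isoDA K B (B × U)).surjective ξ
    exact LinearMap.congr_fun (hom_G y π hπ (B × U) (f ∘ₗ (isoDA K B (B × U)).toLinearMap)) η
  · have hcls : Cls B U (B × U) := by
      refine ⟨inferInstance, fun n => ?_⟩
      have hS := shortExact_of (LinearMap.inl B B U) (LinearMap.snd B B U)
        LinearMap.inl_injective LinearMap.snd_surjective (fun a => rfl)
        (fun b hb => ⟨b.1, Prod.ext rfl hb.symm⟩)
      have hinj := injective_self y
      have : Injective (ModuleCat.of B B) := Module.injective_object_of_injective_module B B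
      refine co_mid hS (ModuleCat.of B U) (n + 1) ?_ (hU n)
      exact subsingleton_of_forall_eq 0 fun x => Ext.eq_zero_of_injective x
    exact subsingleton_of_iso (isoDA K B (B × U)).toModuleIso (k + 1) (ext_G y π hπ k (B × U) hcls)

end Pool.Agent.H860.TN
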